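import Pool.Agent.Lib.MP_d9b062_al_m.MAsm
import Pool.Agent.Lib.MP_d9b062_al_m.MFine
import Pool.Agent.Lib.MP_d9b062_al_m.MBrk

/-!
# Irreducible representations of semisimple groups which fail condition (S) are Milnor

Let `ρ` be an irreducible representation on `ℝ^N` of a group `𝒢`, and let `𝔤` be a semisimple Lie
algebra of `N × N` matrices such that `ρ(𝒢)` has the same Zariski closure as the Lie group generated
by `exp 𝔤`.  (For a connected semisimple Lie group `𝒢` and the image `𝔤` of its Lie algebra, `ρ(𝒢)`
is the group generated by `exp 𝔤`.)  Let `A` be a Cartan subspace of `𝔤`, and let `w ∈ 𝒢` represent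
the longest element of the restricted Weyl group, for the positive system given by a regular element
`H` of `A`.  If every vector fixed by the centralizer `L` of `A` is fixed by `w`, then `ρ` is Milnor.
-/

namespace Pool.Agent.Results.MP_d9b062_al.FailingSIsMilnor

open Pool.Agent.Lib.MP_d9b062_al.Stmt Matrix

attribute [local instance 100] LieRing.ofAssociativeRing

/-- Every irreducible representation of a semisimple group which fails condition (S) is Milnor;
equivalently, every irreducible non-Milnor representation satisfies condition (S). -/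
theorem result {𝒢 : Type*} [Group 𝒢] {N : ℕ} (ρ : 𝒢 →* GL (Fin N) ℝ) (hirr : IsIrreducible ρ)
    (𝔤 : LieSubalgebra ℝ (Matrix (Fin N) (Fin N) ℝ)) [LieAlgebra.IsSemisimple ℝ 𝔤]
    (hρ : SameZariskiClosure ρ 𝔤)
    (A : Submodule ℝ (Matrix (Fin N) (Fin N) ℝ)) (hA : IsCartanSubspace 𝔤 A)
    (H : A) (hH : IsRegular 𝔤 A H) (w : 𝒢) (hw : IsLongest 𝔤 A H (ρ w))
    (hS : ¬ CondS ρ A w) : IsMilnor ρ :=
  isMilnor_of_mem hirr hρ
    (fun _ hX => mem_of_inZcl (fun _ _ hS' hT => hS'.mul hT) (fun _ hY _ hZ => bracket_mem hY hZ)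
      (fun _ hz hc => central_eq_zero hirr.1 (fun _ hP hcP _ hT => det_block_eq_one hP hcP hT)
        (schur hirr hρ) hz hc) hX)
    hA hH hw hS

end Pool.Agent.Results.MP_d9b062_al.FailingSIsMilnor
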